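import Pool.Agent.Helper61.P3.St1
import Pool.Agent.Helper20.RG.M_RF2

/-!
Project P3, module RF2: as `Pool.Agent.Helper20.RG.hRF2`, with an arbitrary measurable set `H` which
contains the parallelograms.
-/

set_option autoImplicit false

open MeasureTheory Set Filter Topology
open scoped ENNReal RealInnerProductSpace

namespace Pool.Agent.Helper47.P3

open Pool.Agent.Helper61.P3
open Pool.Agent.Helper20.RG hiding StRF2
open Pool.Agent.Helper20.EQ
open Pool.Agent.Helper68.LM (Pl BB Bd Av HL ft fm DQ)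
open Pool.Agent.Helper68.EP (elt GapP)

theorem hRF2 (hPT : Pool.Agent.Helper20.RG.StPT) (hPAR : Pool.Agent.Helper20.RG.StPAR) :
    Pool.Agent.Helper61.P3.StRF2 := by
  intro N s Er F I z p L L₂ α D m nst Γ hR R H hH hRR
  obtain ⟨hΓ, hΓ1, hD⟩ := hR.gam
  have hΓ0 : 0 < Γ := by linarith
  have hm : 0 < m := by linarith [hR.m1.1]
  have hα := hR.al.1
  have key := markov_count (ι := Ix N s I p α (H))
    (fun i => {x | pr (s i.q.1) x ∈ F i.q.1 ∩ dI i.a ∧ pr (s i.q.2) x ∈ F i.q.2 ∩ dI i.b})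
    (fun i => {x | pr (s i.q.1) x ∈ dI i.a ∧ pr (s i.q.2) x ∈ dI i.b}) ?_ ?_
    (ENNReal.ofReal (18 / 100 * m ^ 2)) (ENNReal.ofReal (4 / Γ ^ 2)) R (H)
    (fun y => ENNReal.ofReal (Gs N s I y) ^ 2) ?_ ?_ ?_
  · calc volume R = ENNReal.ofReal (1 / (18 / 100 * m ^ 2)) *
          (ENNReal.ofReal (18 / 100 * m ^ 2) * volume R) := by
          rw [← mul_assoc, ← ENNReal.ofReal_mul (by positivity),
            show 1 / (18 / 100 * m ^ 2) * (18 / 100 * m ^ 2) = (1 : ℝ) by field_simp,
            ENNReal.ofReal_one, one_mul]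
      _ ≤ ENNReal.ofReal (1 / (18 / 100 * m ^ 2)) * (ENNReal.ofReal (4 / Γ ^ 2) *
        ∫⁻ y in H, ENNReal.ofReal (Gs N s I y) ^ 2) := by gcongr
      _ = ENNReal.ofReal (1 / (18 / 100 * m ^ 2) * (4 / Γ ^ 2)) *
        ∫⁻ y in H, ENNReal.ofReal (Gs N s I y) ^ 2 := by
          rw [← mul_assoc, ← ENNReal.ofReal_mul (by positivity)]
      _ ≤ ENNReal.ofReal (23 / (m ^ 2 * Γ ^ 2)) *
        ∫⁻ y in H, ENNReal.ofReal (Gs N s I y) ^ 2 := by
          have e : 1 / (18 / 100 * m ^ 2) * (4 / Γ ^ 2) = (400 / 18) / (m ^ 2 * Γ ^ 2) := by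
            field_simp
            norm_num
          have e' : (400 / 18) / (m ^ 2 * Γ ^ 2) ≤ 23 / (m ^ 2 * Γ ^ 2) := by
            apply div_le_div_of_nonneg_right (by norm_num) (by positivity)
          rw [e]
          exact mul_le_mul_left (ENNReal.ofReal_le_ofReal e') _
  · intro i
    exact ((measurable_pr _) ((hR.opn _ i.q1).measurableSet.inter (meas_dI _))).inter
      ((measurable_pr _) ((hR.opn _ i.q2).measurableSet.inter (meas_dI _)))
  · intro i
    exact ((measurable_pr _) (meas_dI _)).inter ((measurable_pr _) (meas_dI _))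
  · intro x hx
    have h1 := hRR x hx
    refine (ENNReal.ofReal_le_ofReal h1).trans ?_
    have hch : ∀ q : {q : ℕ × ℕ | q.1 < N ∧ q.2 < N ∧ α < |s q.1 - s q.2| ∧
        ∃ a ∈ I q.1, ∃ b ∈ I q.2, pr (s q.1) x ∈ F q.1 ∩ dI a ∧ pr (s q.2) x ∈ F q.2 ∩ dI b ∧
          a.1 < p ∧ b.1 < p ∧
          {y : Pl | pr (s q.1) y ∈ dI a ∧ pr (s q.2) y ∈ dI b} ⊆ H},
        ∃ i : Ix N s I p α (H), i.q = q.1 ∧
          pr (s i.q.1) x ∈ F i.q.1 ∩ dI i.a ∧ pr (s i.q.2) x ∈ F i.q.2 ∩ dI i.b := by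
      rintro ⟨q, h1, h2, h3, a, ha, b, hb, h4, h5, h6, h7, h8⟩
      exact ⟨⟨q, a, b, h1, h2, h3, ha, hb, h6, h7, h8⟩, rfl, h4, h5⟩
    choose g hg1 hg2 using hch
    refine tsum_ind_ge _ x _ ?_ g ?_ ?_
    · refine ((Finset.range N ×ˢ Finset.range N).finite_toSet).subset ?_
      intro q hq
      simp only [Finset.coe_product, Finset.coe_range, Set.mem_prod, Set.mem_Iio]
      exact ⟨hq.1, hq.2.1⟩
    · intro q q' h
      apply Subtype.ext
      rw [← hg1 q, ← hg1 q', h]
    · intro q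
      exact hg2 q
  · intro i
    have hne : s i.q.1 ≠ s i.q.2 := by
      intro h
      have h3 := i.sl
      rw [h, sub_self, abs_zero] at h3
      linarith
    have e1 := hPAR (s i.q.1) (s i.q.2) (F i.q.1 ∩ dI i.a) (F i.q.2 ∩ dI i.b) hne
      ((hR.opn _ i.q1).measurableSet.inter (meas_dI _))
      ((hR.opn _ i.q2).measurableSet.inter (meas_dI _))
    have e2 := hPAR (s i.q.1) (s i.q.2) (dI i.a) (dI i.b) hne (meas_dI _) (meas_dI _)
    have e3 := (hR.i1 _ i.q1 _ i.ha).2.2 i.ap
    have e4 := (hR.i1 _ i.q2 _ i.hb).2.2 i.bp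
    rw [e1, e2, vol_dI, vol_dI, ← mul_assoc]
    refine mul_le_mul_left ?_ _
    calc volume (F i.q.1 ∩ dI i.a) * volume (F i.q.2 ∩ dI i.b)
        ≤ ENNReal.ofReal (2 * (2 : ℝ) ^ i.a.1 / Γ) * ENNReal.ofReal (2 * (2 : ℝ) ^ i.b.1 / Γ) :=
          mul_le_mul' e3 e4
      _ = ENNReal.ofReal (4 / Γ ^ 2) * (ENNReal.ofReal ((2 : ℝ) ^ i.a.1) *
            ENNReal.ofReal ((2 : ℝ) ^ i.b.1)) := by
          rw [← ENNReal.ofReal_mul (by positivity), ← ENNReal.ofReal_mul (by positivity),
            ← ENNReal.ofReal_mul (by positivity)]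
          congr 1
          field_simp
          ring
  · intro y
    classical
    by_cases hy : ∃ i : Ix N s I p α (H), pr (s i.q.1) y ∈ dI i.a ∧
        pr (s i.q.2) y ∈ dI i.b
    · obtain ⟨i₀, hi₀⟩ := hy
      have hyH : y ∈ H := i₀.sub hi₀
      rw [Set.indicator_of_mem hyH]
      obtain ⟨J, hJ⟩ : ∃ J : Finset ℕ, J = (Finset.range N).filter fun j => pr (s j) y ∈ Om (I j) :=
        ⟨_, rfl⟩
      have hG : Gs N s I y = (J.card : ℝ) := by
        unfold Gs ind
        simp only [Set.indicator_apply]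
        rw [Finset.sum_ite, hJ]
        simp
      rw [hG, ENNReal.ofReal_natCast]
      have e3 : ((J.card : ℝ≥0∞)) ^ 2 = ((J.card ^ 2 : ℕ) : ℝ≥0∞) := by push_cast; ring
      rw [e3]
      refine tsum_ind_le (κ := ℕ) _ y _ ?_
      intro T hT
      have hcard : (J ×ˢ J).card = J.card ^ 2 := by rw [Finset.card_product]; ring
      rw [← hcard]
      refine Finset.card_le_card_of_injOn (fun i => i.q) ?_ ?_
      · intro i hi
        have hi' := hT i hi
        have k1 : pr (s i.q.1) y ∈ Om (I i.q.1) := by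
          unfold Om
          exact Set.mem_biUnion i.ha (dI_sub_dI5 _ hi'.1)
        have k2 : pr (s i.q.2) y ∈ Om (I i.q.2) := by
          unfold Om
          exact Set.mem_biUnion i.hb (dI_sub_dI5 _ hi'.2)
        rw [hJ]
        simp only [Finset.coe_product, Set.mem_prod, Finset.mem_coe, Finset.mem_filter,
          Finset.mem_range]
        exact ⟨⟨i.q1, k1⟩, ⟨i.q2, k2⟩⟩
      · intro i hi i' hi' hq
        have hiB := hT i hi
        have hiB' := hT i' hi'
        have q1 : i.q.1 = i'.q.1 := by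
          have : i.q = i'.q := hq
          rw [this]
        have q2 : i.q.2 = i'.q.2 := by
          have : i.q = i'.q := hq
          rw [this]
        have m1 := hiB.1
        have m2 := hiB.2
        have m1' := hiB'.1
        have m2' := hiB'.2
        have ha' := i'.ha
        have hb' := i'.hb
        rw [← q1] at ha' m1'
        rw [← q2] at hb' m2'
        have a1 : i.a = i'.a := by
          by_contra hne
          exact (Set.disjoint_left.mp (hR.i2 _ i.q1 _ i.ha _ ha' hne)) m1 m1'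
        have a2 : i.b = i'.b := by
          by_contra hne
          exact (Set.disjoint_left.mp (hR.i2 _ i.q2 _ i.hb _ hb' hne)) m2 m2'
        exact Ix.ext' i i' hq a1 a2
    · push Not at hy
      have : ∑' i : Ix N s I p α (H),
          ({x | pr (s i.q.1) x ∈ dI i.a ∧ pr (s i.q.2) x ∈ dI i.b} : Set Pl).indicator
            (fun _ => (1 : ℝ≥0∞)) y = 0 := by
        rw [ENNReal.tsum_eq_zero]
        intro i
        exact Set.indicator_of_notMem (fun h => hy i h.1 h.2) _
      rw [this]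
      exact bot_le

end Pool.Agent.Helper47.P3
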